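import Pool.Agent.Q258.MT.AsmAll
import Pool.Agent.Q258.MT.Alg8

set_option autoImplicit false

/-!
The monotone triangle polynomial at the row `1, ..., n + 1, 1, ..., n`.
-/

namespace Pool.Agent.Results.MP_ea94f4_co.SignedEvaluation

open Pool.Agent.Q258.MT

/-- The number of alternating sign matrices of size `n`. -/
noncomputable def asmNumber (n : ℕ) : ℕ :=
  Nat.card {a : Fin n → Fin n → ℤ // IsASM a}

/-- The sequence `1, ..., n + 1, 1, ..., n` of length `2 n + 1` (positions counted from `0`). -/
def row (n : ℕ) : Fin (2 * n + 1) → ℤ :=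
  fun q => if (q : ℕ) ≤ n then (q : ℕ) + 1 else (q : ℕ) - (n : ℤ)

theorem ofFn_row (n : ℕ) : List.ofFn (row n) = up 1 (n + 1) ++ up 1 n := by
  apply ofFn_eq_of_getElem
  · intro q hq
    simp only [row]
    split_ifs with h
    · rw [List.getElem_append_left (by rw [up_length]; omega), up_getElem]
      ring
    · rw [List.getElem_append_right (by rw [up_length]; omega), up_getElem, up_length]
      rw [Nat.cast_sub (by omega)]
      push_cast; ring
  · rw [List.length_append, up_length, up_length]
    ring

/-- **The value at `1, ..., n + 1, 1, ..., n`.** For every `n` there is exactly one monotone triangle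
polynomial in `n + 1` variables. For all `n ≥ 1` the number `A_n` of monotone triangles with bottom row
`1, ..., n`, which is also the number of alternating sign matrices of size `n`, is `(-1)^n` times the
value of the monotone triangle polynomial in `2 n + 1` variables at `(1, ..., n + 1, 1, ..., n)`.
(In the statement `n` is replaced by `n + 1`.) -/
theorem result :
    (∀ n : ℕ, ∃! p : MvPolynomial (Fin (n + 1)) ℚ, IsMTPoly n p) ∧
    (∀ n : ℕ, mtCount n (fun q => (q : ℕ) + 1) = asmNumber (n + 1)) ∧
    ∀ (n : ℕ) (p : MvPolynomial (Fin (2 * (n + 1) + 1)) ℚ), IsMTPoly (2 * (n + 1)) p →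
      (mtCount n (fun q => (q : ℕ) + 1) : ℚ) =
        (-1) ^ (n + 1) * MvPolynomial.eval (fun q => (row (n + 1) q : ℚ)) p := by
  have hmono : ∀ n : ℕ, StrictMono (fun q : Fin (n + 1) => ((q : ℕ) : ℤ) + 1) := by
    intro n a b hab
    have : (a : ℕ) < (b : ℕ) := hab
    show ((a : ℕ) : ℤ) + 1 < ((b : ℕ) : ℤ) + 1
    omega
  have hcount : ∀ n : ℕ, (mtCount n (fun q => (q : ℕ) + 1) : ℚ) = al (n + 1) (up 1 (n + 1)) := by
    intro n
    rw [← al_eq_count n _ (hmono n), ofFn_up' (n + 1) 1 _ (fun i => by ring)]
  refine ⟨existsUnique_mtPoly, fun n => ?_, fun n p hp => ?_⟩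
  · have := hcount n
    rw [← asm_total] at this
    exact_mod_cast this
  · have e : 2 * (n + 1) + 1 = n + 1 + 1 + (n + 1) := by ring
    rw [hp.eval_eq, ofFn_row, hcount, e, al_J (n + 1), ← mul_assoc, ← mul_pow]
    norm_num

end Pool.Agent.Results.MP_ea94f4_co.SignedEvaluation
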